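import Pool.Agent.H534R3.XApp
import Pool.Agent.H534R3.PiThree

/-!
# Borel complexity of differences of generalized sets of normal numbers

For multiplicatively independent integers `a, b > 1` and every `k ≥ 0` the set of the real
polynomials `g` of degree at most `k` such that `g(n) a ^ n` is uniformly distributed modulo one
and `g(n) b ^ n` is not is complete for the class of the differences of two sets of the third
multiplicative class.

For constant polynomials the reduction of the library (a continuous map from the Baire space to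
the reals that reduces independently the convergence to infinity along the two parities to the
normality in the bases `a` and `b`) gives the hardness; the constant polynomials form a closed line
of the space of coefficient vectors, and this gives the hardness for all `k`.
-/

set_option autoImplicit false

open Filter Topology

namespace Pool.Agent.Results.MP_df8ac3_lc.PolynomialMultiples

/-- The sequence `x` is uniformly distributed modulo one. -/
def IsUD (x : ℕ → ℝ) : Prop := ∀ s t : ℝ, 0 ≤ s → s ≤ t → t ≤ 1 →
  Tendsto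
    (fun N : ℕ =>
      (((Finset.range N).filter (fun n => s ≤ Int.fract (x n) ∧ Int.fract (x n) < t)).card : ℝ)
        / (N : ℝ))
    atTop (nhds (t - s))

/-- The set `N_{a,k}` of the real polynomials `g` of degree at most `k`, given by the vector `c` of
their coefficients in `ℝ^(k+1)`, such that `g(n) a ^ n` is uniformly distributed modulo one. -/
def NormalVectors (a k : ℕ) : Set (Fin (k + 1) → ℝ) :=
  {c | IsUD (fun n : ℕ => (∑ i : Fin (k + 1), c i * (n : ℝ) ^ (i : ℕ)) * (a : ℝ) ^ n)}

/-- `A` is a countable intersection of countable unions of closed sets. -/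
def IsPiThree {X : Type} [TopologicalSpace X] (A : Set X) : Prop :=
  ∃ F : ℕ → ℕ → Set X, (∀ i j, IsClosed (F i j)) ∧ A = ⋂ i, ⋃ j, F i j

/-- `D` is the difference of two sets of the third multiplicative class. -/
def IsDTwo {X : Type} [TopologicalSpace X] (D : Set X) : Prop :=
  ∃ A B : Set X, IsPiThree A ∧ IsPiThree B ∧ D = A \ B

/-- `D` is complete for the class of the differences of two sets of the third multiplicative class:
it belongs to the class and its complement does not. -/
def IsDTwoComplete {X : Type} [TopologicalSpace X] (D : Set X) : Prop :=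
  IsDTwo D ∧ ¬ IsDTwo Dᶜ

theorem piThree_preimage {X Y : Type} [TopologicalSpace X] [TopologicalSpace Y] {f : X → Y}
    (hf : Continuous f) {A : Set Y} (hA : IsPiThree A) : IsPiThree (f ⁻¹' A) := by
  obtain ⟨F, hF, rfl⟩ := hA
  refine ⟨fun i j => f ⁻¹' F i j, fun i j => (hF i j).preimage hf, ?_⟩
  simp only [Set.preimage_iInter, Set.preimage_iUnion]

/-- The constant polynomial, as a vector of coefficients. -/
def constVec (k : ℕ) (ξ : ℝ) : Fin (k + 1) → ℝ := fun i => if i = 0 then ξ else 0

theorem continuous_constVec (k : ℕ) : Continuous (constVec k) := by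
  refine continuous_pi fun i => ?_
  unfold constVec
  split_ifs
  · exact continuous_id
  · exact continuous_const

theorem constVec_eval (k : ℕ) (ξ : ℝ) (n : ℕ) :
    ∑ i : Fin (k + 1), constVec k ξ i * (n : ℝ) ^ (i : ℕ) = ξ := by
  rw [Finset.sum_eq_single 0]
  · simp [constVec]
  · intro i _ hi
    simp [constVec, hi]
  · intro h
    exact absurd (Finset.mem_univ _) h

theorem irrational_of_independent {a b : ℕ} (ha : 1 < a) (hb : 1 < b)
    (hab : ∀ m n : ℕ, 0 < m → 0 < n → a ^ m ≠ b ^ n) :
    Irrational (Real.log |(a : ℝ)| / Real.log |(b : ℝ)|) := by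
  have ha' : (1 : ℝ) < a := by exact_mod_cast ha
  have hb' : (1 : ℝ) < b := by exact_mod_cast hb
  rw [abs_of_pos (by linarith), abs_of_pos (by linarith)]
  have hla := Real.log_pos ha'
  have hlb := Real.log_pos hb'
  rintro ⟨q, hq⟩
  have hqpos : 0 < q := by
    have h1 : (0 : ℝ) < (q : ℝ) := by rw [hq]; positivity
    exact_mod_cast h1
  obtain ⟨m, hm⟩ : ∃ m : ℕ, q.num = m := ⟨q.num.toNat, by
    rw [Int.toNat_of_nonneg]; exact (Rat.num_pos.2 hqpos).le⟩
  have hm0 : 0 < m := by
    have := Rat.num_pos.2 hqpos
    omega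
  have hd : (q.den : ℝ) * Real.log a = (m : ℝ) * Real.log b := by
    have h1 : (q : ℝ) = (m : ℝ) / (q.den : ℝ) := by
      conv_lhs => rw [← Rat.num_div_den q]
      rw [hm]
      push_cast
      rfl
    have hden : (q.den : ℝ) ≠ 0 := by exact_mod_cast q.den_nz
    have h2 : Real.log a = q * Real.log b := by
      rw [hq]
      field_simp
    rw [h2, h1]
    field_simp
  have h3 : Real.log ((a : ℝ) ^ q.den) = Real.log ((b : ℝ) ^ m) := by
    rw [Real.log_pow, Real.log_pow]
    exact hd
  have h4 : (a : ℝ) ^ q.den = (b : ℝ) ^ m :=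
    Real.log_injOn_pos (by simp only [Set.mem_Ioi]; positivity)
      (by simp only [Set.mem_Ioi]; positivity) h3
  exact hab q.den m q.den_pos hm0 (by exact_mod_cast h4)

/-- For all multiplicatively independent integers `a, b > 1` and every `k ≥ 0`, the set
`N_{a,k} \ N_{b,k}` is complete for the class of the differences of two sets of the third
multiplicative class. -/
theorem result (a b : ℕ) (ha : 1 < a) (hb : 1 < b)
    (hab : ∀ m n : ℕ, 0 < m → 0 < n → a ^ m ≠ b ^ n) (k : ℕ) :
    IsDTwoComplete (NormalVectors a k \ NormalVectors b k) := by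
  have hN : ∀ c : ℕ, IsPiThree (NormalVectors c k) := by
    intro c
    obtain ⟨F, hF, hFe⟩ := Pool.Agent.H534R3.UDist.ud_piThree
      (fun (v : Fin (k + 1) → ℝ) (n : ℕ) =>
        (∑ i : Fin (k + 1), v i * (n : ℝ) ^ (i : ℕ)) * (c : ℝ) ^ n) (fun n => by fun_prop)
    exact ⟨F, hF, hFe⟩
  refine ⟨⟨_, _, hN a, hN b, rfl⟩, ?_⟩
  rintro ⟨A, B, hA, hB, hAB⟩
  have ha' : (1 : ℝ) < |(a : ℝ)| := by
    rw [abs_of_nonneg (by positivity)]
    exact_mod_cast ha
  have hb' : (1 : ℝ) < |(b : ℝ)| := by
    rw [abs_of_nonneg (by positivity)]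
    exact_mod_cast hb
  obtain ⟨g, hg, hga, hgb⟩ := Pool.Agent.H534R3.Rota.reduce_two_real (a : ℝ) (b : ℝ) ha' hb'
    (irrational_of_independent ha hb hab)
  have hG : Continuous (fun w => constVec k (g w)) := (continuous_constVec k).comp hg
  have key : ∀ (c : ℕ) w, constVec k (g w) ∈ NormalVectors c k ↔
      IsUD (fun n : ℕ => g w * (c : ℝ) ^ n) := by
    intro c w
    unfold NormalVectors
    simp only [Set.mem_setOf_eq, constVec_eval]
  obtain ⟨F, hF, hFe⟩ := piThree_preimage hG hA
  obtain ⟨F', hF', hFe'⟩ := piThree_preimage hG hB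
  refine Pool.Agent.H534R3.Rota.no_dual
    (fun w t => ∀ e, ∃ J, ∀ j, J ≤ j → Pool.Agent.H534R3.Rota.ty j = t → e ≤ w j)
    (fun w t => Iff.rfl) F F' hF hF' ?_
  rw [← hFe, ← hFe', ← Set.preimage_sdiff, ← hAB, Set.preimage_compl]
  congr 1
  ext w
  rw [Set.mem_setOf_eq, ← hga, ← hgb]
  change _ ↔ constVec k (g w) ∈ NormalVectors a k ∧ constVec k (g w) ∉ NormalVectors b k
  rw [key, key]
  exact Iff.rfl

end Pool.Agent.Results.MP_df8ac3_lc.PolynomialMultiples
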